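import Pool.Agent.Helper20.MB.DefsG

/-!
# MB-7a : elementary properties of the gauge transformation
-/

open Filter Metric Module Set
open scoped Topology ContDiff RealInnerProductSpace Manifold

set_option maxSynthPendingDepth 3

namespace Pool.Agent.Helper40.MB
open Pool.Agent.Helper20.PC Pool.Agent.Helper20.HP Pool.Agent.Helper20.M8 Pool.Agent.Helper20.MB

section
variable {V Y : Type*} [NormedAddCommGroup V] [NormedSpace ℝ V] [FiniteDimensional ℝ V]
  [NormedAddCommGroup Y] [NormedSpace ℝ Y] [FiniteDimensional ℝ Y]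

omit [FiniteDimensional ℝ V] [FiniteDimensional ℝ Y] in
theorem gau_contDiff (A : V → V →L[ℝ] Y →L[ℝ] Y) (x : V) : ContDiff ℝ ∞ (gau A x) := by
  have h1 : ContDiff ℝ ∞ (fun z : V => z - x) := contDiff_id.sub contDiff_const
  have h2 : ContDiff ℝ ∞ (fun z : V => A x (z - x)) := (A x).contDiff.comp h1
  have h3 : ContDiff ℝ ∞ (fun z : V => fderiv ℝ A x (z - x)) := (fderiv ℝ A x).contDiff.comp h1
  exact (contDiff_const.sub h2).add (((h2.clm_comp h2).sub (h3.clm_apply h1)).const_smul (1/2 : ℝ))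

omit [FiniteDimensional ℝ V] [FiniteDimensional ℝ Y] in
theorem gau_self (A : V → V →L[ℝ] Y →L[ℝ] Y) (x : V) : gau A x x = ContinuousLinearMap.id ℝ Y := by
  simp [gau]

omit [FiniteDimensional ℝ V] in
theorem lin_sub_hasFDerivAt {F : Type*} [NormedAddCommGroup F] [NormedSpace ℝ F] (L : V →L[ℝ] F)
    (x z : V) : HasFDerivAt (fun z : V => L (z - x)) L z := by
  have h1 : HasFDerivAt (fun z : V => z - x) (ContinuousLinearMap.id ℝ V) z :=
    (hasFDerivAt_id z).sub_const x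
  have h2 := (L.hasFDerivAt (x := z - x)).comp z h1
  rw [ContinuousLinearMap.comp_id] at h2
  exact h2

/-- the derivative of the gauge transformation at all points -/
noncomputable def gauD (L : V →L[ℝ] Y →L[ℝ] Y) (B : V →L[ℝ] V →L[ℝ] Y →L[ℝ] Y) (w : V) :
    V →L[ℝ] Y →L[ℝ] Y :=
  - L + (1/2 : ℝ) • ((ContinuousLinearMap.compL ℝ Y Y Y (L w)) ∘L L
    + ((ContinuousLinearMap.compL ℝ Y Y Y).flip (L w)) ∘L L - B.flip w - B w)

omit [FiniteDimensional ℝ V] [FiniteDimensional ℝ Y] in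
theorem gau_hasFDerivAt (A : V → V →L[ℝ] Y →L[ℝ] Y) (x z : V) :
    HasFDerivAt (gau A x) (gauD (A x) (fderiv ℝ A x) (z - x)) z := by
  have h1 : HasFDerivAt (fun z : V => z - x) (ContinuousLinearMap.id ℝ V) z :=
    (hasFDerivAt_id z).sub_const x
  have h2 : HasFDerivAt (fun z : V => A x (z - x)) (A x) z := lin_sub_hasFDerivAt _ x z
  have h3 : HasFDerivAt (fun z : V => fderiv ℝ A x (z - x)) (fderiv ℝ A x) z :=
    lin_sub_hasFDerivAt _ x z
  have h4 := (h2.clm_comp h2).sub (h3.clm_apply h1)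
  have h5 := ((hasFDerivAt_const (ContinuousLinearMap.id ℝ Y) z).sub h2).add
    (h4.const_smul (1/2 : ℝ))
  refine h5.congr_fderiv ?_
  ext ζ p
  simp [gauD]
  abel

omit [FiniteDimensional ℝ V] [FiniteDimensional ℝ Y] in
theorem gau_fderiv (A : V → V →L[ℝ] Y →L[ℝ] Y) (x ζ : V) : fderiv ℝ (gau A x) x ζ = - A x ζ := by
  rw [(gau_hasFDerivAt A x x).fderiv]
  simp [gauD]

omit [FiniteDimensional ℝ V] [FiniteDimensional ℝ Y] in
theorem gau_fderiv2 (A : V → V →L[ℝ] Y →L[ℝ] Y) (x ξ ζ : V) :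
    fderiv ℝ (fderiv ℝ (gau A x)) x ξ ζ = (1/2 : ℝ) • ((A x ξ) ∘L (A x ζ) + (A x ζ) ∘L (A x ξ)
      - fderiv ℝ A x ξ ζ - fderiv ℝ A x ζ ξ) := by
  have e : fderiv ℝ (gau A x) = fun z => gauD (A x) (fderiv ℝ A x) (z - x) := by
    funext z
    exact (gau_hasFDerivAt A x z).fderiv
  rw [e]
  have h1 : HasFDerivAt (fun z : V => z - x) (ContinuousLinearMap.id ℝ V) x :=
    (hasFDerivAt_id x).sub_const x
  have h2 : HasFDerivAt (fun z : V => A x (z - x)) (A x) x := lin_sub_hasFDerivAt _ x x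
  have h3 : HasFDerivAt (fun z : V => fderiv ℝ A x (z - x)) (fderiv ℝ A x) x :=
    lin_sub_hasFDerivAt _ x x
  have h4 : HasFDerivAt (fun z : V => (fderiv ℝ A x).flip (z - x)) (fderiv ℝ A x).flip x :=
    lin_sub_hasFDerivAt _ x x
  have h5 : HasFDerivAt (fun z : V => ContinuousLinearMap.compL ℝ Y Y Y (A x (z - x)))
      ((ContinuousLinearMap.compL ℝ Y Y Y) ∘L (A x)) x :=
    (ContinuousLinearMap.compL ℝ Y Y Y).hasFDerivAt.comp x h2
  have h6 : HasFDerivAt (fun z : V => (ContinuousLinearMap.compL ℝ Y Y Y).flip (A x (z - x)))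
      ((ContinuousLinearMap.compL ℝ Y Y Y).flip ∘L (A x)) x :=
    (ContinuousLinearMap.compL ℝ Y Y Y).flip.hasFDerivAt.comp x h2
  have h7 := h5.clm_comp (hasFDerivAt_const (A x) x)
  have h8 := h6.clm_comp (hasFDerivAt_const (A x) x)
  have h9 := (hasFDerivAt_const (-(A x)) x).add
    ((((h7.add h8).sub h4).sub h3).const_smul (1/2 : ℝ))
  have h10 : HasFDerivAt (fun z => gauD (A x) (fderiv ℝ A x) (z - x)) _ x := h9
  rw [h10.fderiv]
  ext p
  simp
  abel

theorem gau_inv (A : V → V →L[ℝ] Y →L[ℝ] Y) (x : V) :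
    (∀ᶠ x' in 𝓝 x, (gau A x x').IsInvertible) ∧ ContDiffAt ℝ ∞ (fun x' => (gau A x x').inverse) x := by
  have : CompleteSpace Y := FiniteDimensional.complete ℝ Y
  have hc : ContDiff ℝ ∞ (gau A x) := gau_contDiff A x
  have h0 : gau A x x = ((ContinuousLinearEquiv.refl ℝ Y : Y ≃L[ℝ] Y) : Y →L[ℝ] Y) := by
    rw [gau_self]; rfl
  refine ⟨?_, ?_⟩
  · have h1 : Tendsto (gau A x) (𝓝 x)
        (𝓝 ((ContinuousLinearEquiv.refl ℝ Y : Y ≃L[ℝ] Y) : Y →L[ℝ] Y)) := by
      rw [← h0]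
      exact hc.continuous.continuousAt
    have h2 := h1.eventually (ContinuousLinearEquiv.nhds (ContinuousLinearEquiv.refl ℝ Y))
    filter_upwards [h2] with x' hx'
    exact hx'
  · have h1 : ContDiffAt ℝ ∞ ContinuousLinearMap.inverse (gau A x x) := by
      rw [h0]
      exact contDiffAt_map_inverse (ContinuousLinearEquiv.refl ℝ Y)
    exact h1.comp x hc.contDiffAt

end

end Pool.Agent.Helper40.MB
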